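import Pool.Agent.Helper97.Speed.Markov
import Pool.Agent.Helper46.Speed.ZeroOne

/-! # Zero-one law for local events (W2, for MP_f07f0f_pr, helper97) -/

namespace Pool.Agent.Helper97.Speed

open MeasureTheory Filter Topology ENNReal PMap

variable {α : ℝ} {P : Measure HalfPlane}

/-- box at level `k` -/
def box (k : ℕ) (C : Cd) (v : List ℕ) : Set (HalfPlane × (ℕ → ℕ)) :=
  {p | p.1 ∈ atom k C ∧ pre p.2 k = v}

lemma measurableSet_box (k : ℕ) (C : Cd) (v : List ℕ) : MeasurableSet (box k C v) :=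
  (measurable_fst (measurableSet_atom k C)).inter (measurable_snd (measurableSet_preL k v))

lemma atom_transfer {k : ℕ} {C : Cd} {h g : HalfPlane} (hh : h ∈ atom k C)
    (hl : PMap.LocEq k h.1 g.1) : g ∈ atom k C := by
  obtain ⟨φ, T, T', I⟩ := hl
  exact SubC.transfer I hh

lemma box_transfer {k : ℕ} {C : Cd} {v : List ℕ} {p q : HalfPlane × (ℕ → ℕ)}
    (hp : p ∈ box k C v) (hl : LocP k p q) : q ∈ box k C v :=
  ⟨atom_transfer hp.1 hl.1, hl.2.symm.trans hp.2⟩

lemma box_locP {k : ℕ} {C : Cd} {v : List ℕ} {p q : HalfPlane × (ℕ → ℕ)}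
    (hp : p ∈ box k C v) (hq : q ∈ box k C v) : LocP k p q :=
  ⟨atom_locEq hp.1 hq.1, hp.2.trans hq.2.symm⟩

lemma LocP.symm {k : ℕ} {p q : HalfPlane × (ℕ → ℕ)} (h : LocP k p q) : LocP k q p := by
  obtain ⟨C, -, hC⟩ := exists_atom k p.1
  have hp : p ∈ box k C (pre p.2 k) := ⟨hC, rfl⟩
  exact box_locP (box_transfer hp h) hp

/-- the sigma-algebra of the boxes at level `k` -/
@[reducible] def bsig (k : ℕ) : MeasurableSpace (HalfPlane × (ℕ → ℕ)) where
  MeasurableSet' A := ∀ p q, LocP k p q → (p ∈ A ↔ q ∈ A)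
  measurableSet_empty := by intro p q _; simp
  measurableSet_compl := by
    intro A hA p q h
    simp only [Set.mem_compl_iff]
    rw [hA p q h]
  measurableSet_iUnion := by
    intro f hf p q h
    simp only [Set.mem_iUnion]
    exact exists_congr fun i => hf i p q h

lemma measurableSet_bsig {k : ℕ} {A : Set (HalfPlane × (ℕ → ℕ))} :
    MeasurableSet[bsig k] A ↔ ∀ p q, LocP k p q → (p ∈ A ↔ q ∈ A) := Iff.rfl

lemma bsig_le (k : ℕ) : bsig k ≤ (inferInstance : MeasurableSpace (HalfPlane × (ℕ → ℕ))) := by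
  intro A hA
  refine measurableSet_of_locP ?_
  intro p hp
  exact ⟨k, fun q hq => (hA p q hq).1 hp⟩

/-- the filtration of the boxes -/
def bfil : Filtration ℕ (inferInstance : MeasurableSpace (HalfPlane × (ℕ → ℕ))) where
  seq := bsig
  mono' := by
    intro i j hij A hA p q h
    exact hA p q (h.mono hij)
  le' := bsig_le

/-- local sets are measurable for the supremum -/
lemma measurableSet_iSup_bsig {A : Set (HalfPlane × (ℕ → ℕ))}
    (hA : ∀ p ∈ A, ∃ k, ∀ q, LocP k p q → q ∈ A) : MeasurableSet[⨆ n, bsig n] A := by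
  classical
  have hmeas : ∀ i : ℕ × Cd × List ℕ, MeasurableSet[⨆ n, bsig n] (box i.1 i.2.1 i.2.2) := by
    intro i
    refine (le_iSup bsig i.1) _ ?_
    intro p q h
    exact ⟨fun hp => box_transfer hp h, fun hq => box_transfer hq h.symm⟩
  have hAeq : A = ⋃ i ∈ {i : ℕ × Cd × List ℕ | box i.1 i.2.1 i.2.2 ⊆ A}, box i.1 i.2.1 i.2.2 := by
    ext p
    simp only [Set.mem_iUnion, Set.mem_ofPred_eq]
    constructor
    · intro hp
      obtain ⟨k, hk⟩ := hA p hp
      obtain ⟨C, -, hC⟩ := exists_atom k p.1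
      refine ⟨(k, C, pre p.2 k), ?_, hC, rfl⟩
      intro q hq
      exact hk q (box_locP ⟨hC, rfl⟩ hq)
    · rintro ⟨i, hi, hp⟩
      exact hi hp
  rw [hAeq]
  exact MeasurableSet.biUnion (Set.to_countable _) fun i _ => hmeas i

lemma iSup_bsig : ⨆ n, bsig n = (inferInstance : MeasurableSpace (HalfPlane × (ℕ → ℕ))) := by
  refine le_antisymm (iSup_le bsig_le) ?_
  have h1 : Measurable[⨆ n, bsig n] (Prod.fst : HalfPlane × (ℕ → ℕ) → HalfPlane) := by
    refine @measurable_generateFrom _ _ (⨆ n, bsig n) _ _ ?_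
    rintro _ ⟨l, a, b, n, Q, rfl⟩
    refine measurableSet_iSup_bsig ?_
    intro p hp
    obtain ⟨k, hk⟩ := has_loc hp
    exact ⟨k, fun q hq => hk q.1 hq.1⟩
  have h2 : Measurable[⨆ n, bsig n] (Prod.snd : HalfPlane × (ℕ → ℕ) → ℕ → ℕ) := by
    refine (@measurable_pi_iff _ _ _ (⨆ n, bsig n) _ _).2 fun i => ?_
    intro B _
    refine measurableSet_iSup_bsig ?_
    intro p hp
    refine ⟨i + 1, fun q hq => ?_⟩
    have h3 : p.2 i = q.2 i := (pre_eq_iff.1 hq.2) i (Nat.lt_succ_self i)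
    have h4 : p.2 i ∈ B := hp
    show q.2 i ∈ B
    rw [← h3]; exact h4
  exact sup_le (measurable_iff_comap_le.1 h1) (measurable_iff_comap_le.1 h2)

/-- the probability of the past is constant on an atom -/
lemma cylp_atom {k : ℕ} {C : Cd} {v : List ℕ} (hv : v.length = k) {h g : HalfPlane}
    (hh : h ∈ atom k C) (hg : g ∈ atom k C) :
    cylp (g.1.dg (r0 [] g)) v = cylp (h.1.dg (r0 [] h)) v := by
  obtain ⟨φ, T, T', I⟩ := atom_locEq hh hg
  refine cylp_congr fun u hu _ => ?_
  rw [hv] at hu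
  exact I.dg_start hu subset_rfl

lemma law_box (hP : IsHalfPlaneLaw α P) {k : ℕ} {C : Cd} {v : List ℕ} (hv : v.length = k)
    {h₀ : HalfPlane} (h0 : h₀ ∈ atom k C) {G : Set (HalfPlane × (ℕ → ℕ))} (hG : MeasurableSet G) :
    law P [] (G ∩ box k C v) = cylp (h₀.1.dg (r0 [] h₀)) v *
      law P v {p | p.1 ∈ atom k C ∧ (p.1, app v p.2) ∈ G} := by
  have := hP.prob
  have hm2 : MeasurableSet {p : HalfPlane × (ℕ → ℕ) | (p.1, app v p.2) ∈ G} := by
    have : Measurable (fun p : HalfPlane × (ℕ → ℕ) => (p.1, app v p.2)) :=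
      measurable_fst.prodMk ((measurable_app v).comp measurable_snd)
    exact this hG
  have hm1 : MeasurableSet {p : HalfPlane × (ℕ → ℕ) | p.1 ∈ atom k C ∧ (p.1, app v p.2) ∈ G} :=
    (measurable_fst (measurableSet_atom k C)).inter hm2
  rw [law, law, Measure.compProd_apply (hG.inter (measurableSet_box k C v)),
    Measure.compProd_apply hm1, ← lintegral_const_mul _ (ProbabilityTheory.Kernel.measurable_kernel_prodMk_left hm1)]
  refine lintegral_congr fun h => ?_
  rw [kern_apply, kern_apply]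
  by_cases hh : h ∈ atom k C
  · have e1 : Prod.mk h ⁻¹' (G ∩ box k C v) =
        {a | pre a v.length = v ∧ sh v.length a ∈ {b | (h, app v b) ∈ G}} := by
      ext a
      simp only [Set.mem_preimage, Set.mem_inter_iff, box, Set.mem_ofPred_eq, hv]
      constructor
      · rintro ⟨h1, -, h3⟩
        refine ⟨h3, ?_⟩
        have := app_pre_sh a k
        rw [h3] at this
        rwa [this]
      · rintro ⟨h1, h2⟩
        have := app_pre_sh a k
        rw [h1] at this
        rw [this] at h2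
        exact ⟨h2, hh, h1⟩
    have e2 : Prod.mk h ⁻¹' {p : HalfPlane × (ℕ → ℕ) | p.1 ∈ atom k C ∧ (p.1, app v p.2) ∈ G} =
        {b | (h, app v b) ∈ G} := by
      ext b
      simp only [Set.mem_preimage, Set.mem_ofPred_eq, hh, true_and]
    have hm3 : MeasurableSet {b : ℕ → ℕ | (h, app v b) ∈ G} :=
      (measurable_prodMk_left (x := h)) hm2
    rw [e1, e2, ports_markov (dg_r0_pos [] h) v hm3, cylp_atom hv h0 hh, dg_app]
    congr 2
  · have e1 : Prod.mk h ⁻¹' (G ∩ box k C v) = ∅ := by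
      ext a
      simp only [Set.mem_preimage, Set.mem_inter_iff, box, Set.mem_ofPred_eq, hh, false_and,
        and_false, Set.mem_empty_iff_false]
    have e2 : Prod.mk h ⁻¹' {p : HalfPlane × (ℕ → ℕ) | p.1 ∈ atom k C ∧ (p.1, app v p.2) ∈ G} =
        ∅ := by
      ext b
      simp only [Set.mem_preimage, Set.mem_ofPred_eq, hh, false_and, Set.mem_empty_iff_false]
    rw [e1, e2]; simp

/-- the boxes at level `k`, enumerated and made disjoint -/
lemma exists_boxes (k : ℕ) : ∃ D : ℕ → Set (HalfPlane × (ℕ → ℕ)),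
    (∀ i, MeasurableSet (D i)) ∧ Pairwise (Function.onFun Disjoint D) ∧ (⋃ i, D i) = Set.univ ∧
    ∀ i, D i = ∅ ∨ ∃ (C : Cd) (v : List ℕ), v.length = k ∧ (D i).Nonempty ∧ D i = box k C v := by
  classical
  have : Nonempty (Cd × List ℕ) := ⟨((0, 0, 0, .edge), [])⟩
  obtain ⟨e, he⟩ : ∃ e : ℕ → Cd × List ℕ, ∀ C, ∃ i, e i = C := by
    obtain ⟨e, he⟩ := exists_surjective_nat (Cd × List ℕ)
    exact ⟨e, he⟩
  set B : ℕ → Set (HalfPlane × (ℕ → ℕ)) := fun i => box k (e i).1 (e i).2 with hB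
  have hBm : ∀ i, MeasurableSet (B i) := fun i => measurableSet_box _ _ _
  refine ⟨disjointed B, fun i => MeasurableSet.disjointed hBm i, disjoint_disjointed B, ?_, ?_⟩
  · rw [iUnion_disjointed]
    ext p
    simp only [Set.mem_iUnion, Set.mem_univ, iff_true]
    obtain ⟨C, -, hC⟩ := exists_atom k p.1
    obtain ⟨i, hi⟩ := he (C, pre p.2 k)
    refine ⟨i, ?_⟩
    show p ∈ box k (e i).1 (e i).2
    rw [hi]
    exact ⟨hC, rfl⟩
  · intro i
    rcases Set.eq_empty_or_nonempty (disjointed B i) with h | ⟨p, hp⟩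
    · exact Or.inl h
    right
    have h1 : p ∈ B i := disjointed_subset B i hp
    refine ⟨(e i).1, (e i).2, ?_, ⟨p, hp⟩, Set.Subset.antisymm (disjointed_subset B i) ?_⟩
    · rw [← h1.2, length_pre]
    · intro q hq
      rw [mem_disjointed'] at hp ⊢
      refine ⟨hq, ?_⟩
      intro j hj hqj
      exact hp.2 j hj (box_transfer hqj (box_locP hq h1))

theorem boxes_zero_one (hP : IsHalfPlaneLaw α P) (X : ℕ → HalfPlane × (ℕ → ℕ) → ℝ)
    (hX : ∀ n, Measurable (X n)) {Ω' : Type*} [MeasurableSpace Ω'] (ν : Measure Ω')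
    [IsProbabilityMeasure ν] (L : Ω' → ℝ) (hL : Measurable L) (c : ℝ≥0∞) (hc : c ≠ 0)
    (h : ∀ (v : List ℕ) (C : Cd) (B : Set ℝ), MeasurableSet B →
      c * ν (L ⁻¹' B) * P (atom v.length C) ≤
        law P v {p | p.1 ∈ atom v.length C ∧
          ∃ l ∈ B, Tendsto (fun n => X n (p.1, app v p.2)) atTop (𝓝 l)}) :
    ∃ s : ℝ, ∀ᵐ p ∂law P [], Tendsto (fun n => X n p) atTop (𝓝 s) := by
  have hprob := hP.prob
  have hlaw : IsProbabilityMeasure (law P []) := by unfold law; infer_instance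
  refine zero_one (law P []) ν bfil iSup_bsig X hX L hL c hc ?_
  intro k A hA B hB
  have hA' : ∀ p q, LocP k p q → (p ∈ A ↔ q ∈ A) := hA
  have hAm : MeasurableSet A := bsig_le k A hA
  -- measurability of the event
  set G : Set (HalfPlane × (ℕ → ℕ)) :=
    {p | ∃ l ∈ B, Tendsto (fun n => X n p) atTop (𝓝 l)} with hG
  have hGm : MeasurableSet G := by
    have hconv : MeasurableSet {p | ∃ l, Tendsto (fun n => X n p) atTop (𝓝 l)} :=
      measurableSet_exists_tendsto (l := atTop) (f := X) hX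
    have hlim : Measurable (fun p => limUnder atTop (fun n => X n p)) :=
      (StronglyMeasurable.limUnder (l := atTop) (f := X)
        (fun n => (hX n).stronglyMeasurable)).measurable
    have : G = {p | ∃ l, Tendsto (fun n => X n p) atTop (𝓝 l)} ∩
        (fun p => limUnder atTop (fun n => X n p)) ⁻¹' B := by
      ext p
      constructor
      · rintro ⟨l, hl, hl'⟩
        refine ⟨⟨l, hl'⟩, ?_⟩
        show limUnder atTop (fun n => X n p) ∈ B
        rw [hl'.limUnder_eq]
        exact hl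
      · rintro ⟨⟨l, hl⟩, h2⟩
        refine ⟨l, ?_, hl⟩
        have h3 : limUnder atTop (fun n => X n p) ∈ B := h2
        rwa [hl.limUnder_eq] at h3
    rw [this]
    exact hconv.inter (hlim hB)
  obtain ⟨D, hDm, hDd, hDu, hDb⟩ := exists_boxes k
  have key : ∀ μ : Measure (HalfPlane × (ℕ → ℕ)), μ A = ∑' i, μ (A ∩ D i) := by
    intro μ
    rw [← measure_iUnion (fun i j hij => (hDd hij).mono Set.inter_subset_right
      Set.inter_subset_right) (fun i => hAm.inter (hDm i)), ← Set.inter_iUnion, hDu,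
      Set.inter_univ]
  have e1 : law P [] (G ∩ A) = ∑' i, law P [] (G ∩ (A ∩ D i)) := by
    have h1 := key ((law P []).restrict G)
    rw [Measure.restrict_apply hAm, Set.inter_comm] at h1
    rw [h1]
    congr 1
    funext i
    rw [Measure.restrict_apply (hAm.inter (hDm i)), Set.inter_comm]
  rw [e1, key (law P []), ← ENNReal.tsum_mul_left]
  refine ENNReal.tsum_le_tsum fun i => ?_
  -- one piece
  rcases hDb i with hD | ⟨C, v, hv, ⟨p, hp⟩, hD⟩
  · rw [hD]; simp
  by_cases hpA : p ∈ A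
  · have hADi : A ∩ D i = box k C v := by
      rw [hD] at hp ⊢
      refine Set.inter_eq_right.2 fun q hq => ?_
      exact (hA' p q (box_locP hp hq)).1 hpA
    rw [hADi]
    rw [hD] at hp
    have hb1 := law_box hP hv hp.1 hGm
    have hb2 := law_box hP hv hp.1 (G := Set.univ) MeasurableSet.univ
    rw [Set.univ_inter] at hb2
    have e3 : law P v {q | q.1 ∈ atom k C ∧ (q.1, app v q.2) ∈ (Set.univ : Set _)} =
        P (atom k C) := by
      have e4 : {q : HalfPlane × (ℕ → ℕ) | q.1 ∈ atom k C ∧ (q.1, app v q.2) ∈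
          (Set.univ : Set (HalfPlane × (ℕ → ℕ)))} = atom k C ×ˢ Set.univ := by
        ext q; simp
      rw [e4, law, Measure.compProd_apply ((measurableSet_atom k C).prod MeasurableSet.univ)]
      have e5 : ∀ h : HalfPlane, kern v h (Prod.mk h ⁻¹' (atom k C ×ˢ
          (Set.univ : Set (ℕ → ℕ)))) = (atom k C).indicator 1 h := by
        intro h
        by_cases hh : h ∈ atom k C
        · have : Prod.mk h ⁻¹' (atom k C ×ˢ (Set.univ : Set (ℕ → ℕ))) = Set.univ := by
            ext a; simp [hh]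
          rw [this, measure_univ, Set.indicator_of_mem hh]; rfl
        · have : Prod.mk h ⁻¹' (atom k C ×ˢ (Set.univ : Set (ℕ → ℕ))) = ∅ := by
            ext a; simp [hh]
          rw [this, measure_empty, Set.indicator_of_notMem hh]
      simp only [e5]
      rw [lintegral_indicator_one (measurableSet_atom k C)]
    rw [e3] at hb2
    rw [hb1, hb2]
    have hfin := h v C B hB
    rw [hv] at hfin
    calc c * ν (L ⁻¹' B) * (cylp (p.1.1.dg (r0 [] p.1)) v * P (atom k C))
        = cylp (p.1.1.dg (r0 [] p.1)) v * (c * ν (L ⁻¹' B) * P (atom k C)) := by ring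
      _ ≤ cylp (p.1.1.dg (r0 [] p.1)) v * law P v {q | q.1 ∈ atom k C ∧ (q.1, app v q.2) ∈ G} := by
        exact mul_le_mul_right hfin _
  · have hADi : A ∩ D i = ∅ := by
      rw [Set.eq_empty_iff_forall_notMem]
      rintro q ⟨hqA, hqD⟩
      rw [hD] at hp hqD
      exact hpA ((hA' p q (box_locP hp hqD)).2 hqA)
    rw [hADi]; simp

end Pool.Agent.Helper97.Speed
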